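import Pool.Agent.Helper92.GG.Stmts

/-! # Module DIM: heights of maximal ideals of affine domains -/

set_option autoImplicit false

namespace Pool.Agent.Helper92.GG

open MvPolynomial
open Pool.Agent.Helper49.Girth (cl ty)

universe u

/-- translation by `a` -/
noncomputable def DIM_tr {k : Type u} [Field k] {s : ℕ} (a : Fin s → k) :
    MvPolynomial (Fin s) k →ₐ[k] MvPolynomial (Fin s) k :=
  aeval (fun i => X i + C (a i))

theorem DIM_tr_tr {k : Type u} [Field k] {s : ℕ} (a : Fin s → k) :
    (DIM_tr (-a)).comp (DIM_tr a) = AlgHom.id k (MvPolynomial (Fin s) k) := by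
  apply MvPolynomial.algHom_ext
  intro i
  simp [DIM_tr]

/-- translation as an automorphism -/
noncomputable def DIM_e {k : Type u} [Field k] {s : ℕ} (a : Fin s → k) :
    MvPolynomial (Fin s) k ≃ₐ[k] MvPolynomial (Fin s) k :=
  AlgEquiv.ofAlgHom (DIM_tr a) (DIM_tr (-a))
    (by have := DIM_tr_tr (-a); rwa [neg_neg] at this) (DIM_tr_tr a)

theorem DIM_eval {k : Type u} [Field k] {s : ℕ} (a c : Fin s → k)
    (f : MvPolynomial (Fin s) k) : aeval c (DIM_tr a f) = aeval (c + a) f := by
  have : (aeval c : MvPolynomial (Fin s) k →ₐ[k] k).comp (DIM_tr a) = aeval (c + a) := by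
    apply MvPolynomial.algHom_ext
    intro i
    simp [DIM_tr]
  rw [← this]; rfl

theorem DIM_mv {k : Type u} [Field k] [IsAlgClosed k] (s : ℕ) (M : Ideal (MvPolynomial (Fin s) k))
    [hM : M.IsMaximal] : M.height = s := by
  have hdim : ringKrullDim (MvPolynomial (Fin s) k) = (s : WithBot ℕ∞) := by
    rw [MvPolynomial.ringKrullDim_of_isNoetherianRing, ringKrullDim_eq_zero_of_field]
    simp
  have : FiniteRingKrullDim (MvPolynomial (Fin s) k) := by
    rw [finiteRingKrullDim_iff_ne_bot_and_top, hdim]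
    constructor
    · exact WithBot.coe_ne_bot
    · exact ne_of_beq_false rfl
  obtain ⟨p, hp, hph⟩ := Ideal.exists_isMaximal_height (R := MvPolynomial (Fin s) k)
  rw [hdim] at hph
  obtain ⟨c, hc⟩ := isMaximal_iff_eq_vanishingIdeal_singleton.1 hM
  obtain ⟨c', hc'⟩ := isMaximal_iff_eq_vanishingIdeal_singleton.1 hp
  have key : Ideal.comap (DIM_e (c' - c)).toRingEquiv M = p := by
    ext f
    rw [Ideal.mem_comap, hc, hc', mem_vanishingIdeal_singleton_iff,
      mem_vanishingIdeal_singleton_iff]
    have : (DIM_e (c' - c)).toRingEquiv f = DIM_tr (c' - c) f := rfl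
    rw [this, DIM_eval]
    simp
  have h2 := RingEquiv.height_comap (DIM_e (c' - c)).toRingEquiv M
  rw [key] at h2
  rw [h2] at hph
  exact_mod_cast hph

theorem st_DIM : ST_DIM.{u} := by
  intro k B _ _ _ _ _ _ M hM d hd
  obtain ⟨s, g, hg1, hg2⟩ := exists_integral_inj_algHom_of_fg k B
  algebraize [g.toRingHom]
  have hint : Algebra.IsIntegral (MvPolynomial (Fin s) k) B := ⟨hg2⟩
  have hst : IsScalarTower k (MvPolynomial (Fin s) k) B := IsScalarTower.of_algebraMap_eq
    (fun x => by rw [RingHom.algebraMap_toAlgebra]; exact (g.commutes x).symm)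
  have hfs : FaithfulSMul (MvPolynomial (Fin s) k) B := by
    rw [faithfulSMul_iff_algebraMap_injective]
    exact hg1
  have hfs2 : FaithfulSMul k (MvPolynomial (Fin s) k) := by
    rw [faithfulSMul_iff_algebraMap_injective]
    exact (algebraMap k (MvPolynomial (Fin s) k)).injective
  -- transcendence degree
  have htr : Algebra.trdeg k B = s := by
    have h1 := trdeg_add_eq k (MvPolynomial (Fin s) k) (A := B)
    have h2 : Algebra.trdeg (MvPolynomial (Fin s) k) B = 0 := by
      have : Algebra.IsAlgebraic (MvPolynomial (Fin s) k) B := inferInstance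
      exact trdeg_eq_zero
    rw [← h1, h2, MvPolynomial.trdeg_of_isDomain]
    simp
  have hds : d ≤ s := by
    rw [htr] at hd
    exact_mod_cast hd
  have hnoeth : IsNoetherianRing B := Algebra.FiniteType.isNoetherianRing k B
  have hgd : Algebra.HasGoingDown (MvPolynomial (Fin s) k) B := inferInstance
  let p : Ideal (MvPolynomial (Fin s) k) := M.under (MvPolynomial (Fin s) k)
  have hp : p.IsMaximal := Ideal.isMaximal_comap_of_isIntegral_of_isMaximal M
  have hlo : M.LiesOver p := ⟨rfl⟩
  have h3 := Ideal.height_eq_height_add_of_liesOver_of_hasGoingDown p M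
  rw [DIM_mv s p] at h3
  rw [h3]
  calc (d : ℕ∞) ≤ (s : ℕ∞) := by exact_mod_cast hds
    _ ≤ _ := le_self_add

end Pool.Agent.Helper92.GG
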