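import Pool.Agent.Helper92.GG.Stmts

/-! # Module KRULL, part b: ranks and embeddings -/

set_option autoImplicit false

namespace Pool.Agent.Helper92.GG

open MvPolynomial
open Pool.Agent.Helper49.Girth (cl ty mem_cl mem_cl' coe_cl mem_cl_of_mem cl_mono cl_le_cl)

universe u

theorem KRULL_fin {K Ω : Type u} [Field K] [Field Ω] [Algebra K Ω] {s : Set Ω} (hs : s.Finite) :
    (AlgebraicIndependent.matroid K Ω).eRk s ≠ ⊤ := by
  have h1 := (AlgebraicIndependent.matroid K Ω).eRk_le_encard s
  exact ne_top_of_le_ne_top hs.encard_lt_top.ne h1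

theorem KRULL_rk_ge {K Ω : Type u} [Field K] [Field Ω] [Algebra K Ω] {t : Set Ω}
    (ht : t.Finite) {r : ℕ} (a : Fin r → Ω) (ha : AlgebraicIndependent K a)
    (hat : ∀ i, a i ∈ cl K t) : r ≤ rk K t := by
  have h1 : (AlgebraicIndependent.matroid K Ω).Indep (Set.range a) :=
    AlgebraicIndependent.matroid_indep_iff.2 ha.to_subtype_range
  have h2 : Set.range a ⊆ (AlgebraicIndependent.matroid K Ω).closure t := by
    rintro _ ⟨i, rfl⟩
    rw [← coe_cl]
    exact hat i
  have h3 := h1.encard_le_eRk_of_subset h2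
  rw [Matroid.eRk_closure_eq] at h3
  have h4 : (Set.range a).encard = r := by
    rw [← Set.image_univ, (ha.injective.injOn).encard_image, Set.encard_univ]
    simp
  rw [h4] at h3
  unfold rk
  have h5 := ENat.toNat_le_toNat h3 (KRULL_fin ht)
  simpa using h5

theorem KRULL_basis {K Ω : Type u} [Field K] [Field Ω] [Algebra K Ω] {s : Set Ω}
    (hs : s.Finite) {n : ℕ} (y : Fin n → Ω) :
    ∃ (e : ℕ) (j : Fin e → Fin n), rk K s + e = rk K (s ∪ Set.range y) ∧
      AlgebraicIndependent (cl K s) (fun i => y (j i)) := by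
  obtain ⟨B1, hB1⟩ := (AlgebraicIndependent.matroid K Ω).exists_isBasis s (by simp)
  obtain ⟨B, hB, hB1B⟩ := hB1.indep.subset_isBasis_of_subset
    (hB1.subset.trans (Set.subset_union_left (t := Set.range y))) (by simp)
  have hfin : (s ∪ Set.range y).Finite := hs.union (Set.finite_range y)
  have hBfin : B.Finite := hfin.subset hB.subset
  have hB1fin : B1.Finite := hs.subset hB1.subset
  have hsub : B \ B1 ⊆ Set.range y := by
    rintro b ⟨hb, hb1⟩
    rcases hB.subset hb with h | h
    · exfalso
      apply hb1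
      have h1 : (AlgebraicIndependent.matroid K Ω).Indep (insert b B1) :=
        hB.indep.subset (Set.insert_subset hb hB1B)
      have h2 := hB1.eq_of_subset_indep h1 (Set.subset_insert b B1)
        (Set.insert_subset h hB1.subset)
      rw [h2]
      exact Set.mem_insert _ _
    · exact h
  have hB2fin : (B \ B1).Finite := hBfin.subset Set.sdiff_subset
  have : Finite (B \ B1 : Set Ω) := hB2fin
  let eqv : Fin (Nat.card (B \ B1 : Set Ω)) ≃ (B \ B1 : Set Ω) :=
    (Finite.equivFin (B \ B1 : Set Ω)).symm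
  choose j hj using fun i => hsub (eqv i).2
  refine ⟨Nat.card (B \ B1 : Set Ω), j, ?_, ?_⟩
  · have h1 : rk K s = B1.ncard := by
      unfold rk
      rw [hB1.eRk_eq_encard]; rfl
    have h2 : rk K (s ∪ Set.range y) = B.ncard := by
      unfold rk
      rw [hB.eRk_eq_encard]; rfl
    have h3 : Nat.card (B \ B1 : Set Ω) = (B \ B1).ncard := rfl
    rw [h1, h2, h3, add_comm]
    exact Set.ncard_sdiff_add_ncard_of_subset hB1B hBfin
  · have hind : AlgebraicIndependent K (fun i : B => (i : Ω)) :=
      AlgebraicIndependent.matroid_indep_iff.1 hB.indep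
    let S1 : Set B := {i | (i : Ω) ∈ B1}
    let S2 : Set B := {i | (i : Ω) ∉ B1}
    have hdis : Disjoint S1 S2 := by
      rw [Set.disjoint_left]
      intro i h1 h2
      exact h2 h1
    have h1 := hind.adjoin_of_disjoint hdis
    let A1 : Subalgebra K Ω := Algebra.adjoin K ((fun i : B => (i : Ω)) '' S1)
    have himg : (fun i : B => (i : Ω)) '' S1 = B1 := by
      ext b
      constructor
      · rintro ⟨i, hi, rfl⟩; exact hi
      · intro hb; exact ⟨⟨b, hB1B hb⟩, hb, rfl⟩
    have hA1 : A1 = Algebra.adjoin K B1 := by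
      show Algebra.adjoin K ((fun i : B => (i : Ω)) '' S1) = _
      rw [himg]
    have hle : A1 ≤ (cl K s).toSubalgebra := by
      rw [hA1]
      apply Algebra.adjoin_le
      intro b hb
      exact mem_cl_of_mem (hB1.subset hb)
    let : Algebra A1 (cl K s) := (Subalgebra.inclusion hle).toRingHom.toAlgebra
    have htow : IsScalarTower A1 (cl K s) Ω := IsScalarTower.of_algebraMap_eq fun _ => rfl
    have halg : Algebra.IsAlgebraic A1 (cl K s) := by
      refine ⟨fun a => ?_⟩
      have h2 : (a : Ω) ∈ cl K B1 := by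
        have h3 : (a : Ω) ∈ (cl K s : Set Ω) := a.2
        rw [coe_cl, ← hB1.closure_eq_closure, ← coe_cl] at h3
        exact h3
      rw [mem_cl', ← hA1] at h2
      have h4 := (isAlgebraic_algHom_iff (IsScalarTower.toAlgHom A1 (cl K s) Ω)
        Subtype.val_injective (a := a)).1 h2
      exact h4
    have h2 : AlgebraicIndependent (cl K s) (fun i : S2 => ((i : B) : Ω)) :=
      AlgebraicIndependent.extendScalars (cl K s) h1
    have h3 := h2.comp (fun i => (⟨⟨(eqv i : Ω), (eqv i).2.1⟩, (eqv i).2.2⟩ : S2)) (by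
      intro i i' hii
      apply eqv.injective
      apply Subtype.ext
      exact congrArg (fun z : S2 => ((z : B) : Ω)) hii)
    have h4 : (fun i => y (j i)) = (fun i : S2 => ((i : B) : Ω)) ∘
        (fun i => (⟨⟨(eqv i : Ω), (eqv i).2.1⟩, (eqv i).2.2⟩ : S2)) := by
      funext i
      exact hj i
    rw [h4]
    exact h3

theorem KRULL_free {K Ω : Type u} [Field K] [Field Ω] [Algebra K Ω] [hBig : Big K Ω]
    {s : Set Ω} (hs : s.Finite) (ι : Type u) [Finite ι] :
    ∃ T : ι → Ω, AlgebraicIndependent (cl K s) T := by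
  refine Finite.induction_empty_option (P := fun ι : Type u =>
    ∃ T : ι → Ω, AlgebraicIndependent (cl K s) T) ?_ ?_ ?_ ι
  · rintro α β e ⟨T, hT⟩
    exact ⟨T ∘ e.symm, hT.comp _ e.symm.injective⟩
  · refine ⟨PEmpty.elim, ?_⟩
    rw [algebraicIndependent_empty_type_iff]
    exact (algebraMap (cl K s) Ω).injective
  · rintro α hα ⟨T, hT⟩
    obtain ⟨a, ha⟩ := hBig.big (s ∪ Set.range T) (hs.union (Set.finite_range T))
    refine ⟨fun o => o.elim a T, ?_⟩
    rw [hT.option_iff_transcendental]
    intro halg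
    apply ha
    -- `a` is algebraic over `cl K s [T]`, which is contained in `cl K (s ∪ range T)`
    let C : IntermediateField K Ω := cl K (s ∪ Set.range T)
    have hsub : ∀ b ∈ Algebra.adjoin (cl K s) (Set.range T), b ∈ C := by
      intro b hb
      induction hb using Algebra.adjoin_induction with
      | mem z hz => exact mem_cl_of_mem (Or.inr hz)
      | algebraMap w => exact cl_mono Set.subset_union_left w.2
      | add a b _ _ ha hb => exact C.add_mem ha hb
      | mul a b _ _ ha hb => exact C.mul_mem ha hb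
    obtain ⟨p, hp0, hp⟩ := halg
    apply Pool.Agent.Helper49.Girth.root_mem_cl (p.map (algebraMap _ Ω))
    · rw [Ne, Polynomial.map_eq_zero_iff (Subtype.val_injective)]
      exact hp0
    · intro n
      rw [Polynomial.coeff_map]
      exact hsub _ (p.coeff n).2
    · rw [Polynomial.eval_map]
      exact hp

theorem KRULL_embed {K Ω : Type u} [Field K] [Field Ω] [Algebra K Ω] [hBig : Big K Ω]
    {s : Set Ω} (hs : s.Finite) (C : Type u) [CommRing C] [IsDomain C] [Algebra (cl K s) C]
    [Algebra.FiniteType (cl K s) C] :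
    ∃ θ : C →ₐ[cl K s] Ω, Function.Injective θ := by
  obtain ⟨ι, b, hb⟩ := exists_isTranscendenceBasis' (cl K s) C
  have hι : Finite ι := by
    rw [← Cardinal.lt_aleph0_iff_finite, hb.cardinalMk_eq_trdeg]
    exact trdeg_lt_aleph0_of_finiteType
  obtain ⟨T, hT⟩ := KRULL_free (K := K) hs ι
  have hacl : IsAlgClosed Ω := hBig.alg
  let R := MvPolynomial ι (cl K s)
  let a1 : Algebra R C := (aeval b : MvPolynomial ι (cl K s) →ₐ[cl K s] C).toRingHom.toAlgebra
  let a2 : Algebra R Ω := (aeval T : MvPolynomial ι (cl K s) →ₐ[cl K s] Ω).toRingHom.toAlgebra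
  have t1 : IsScalarTower (cl K s) R C := IsScalarTower.of_algebraMap_eq fun c => by
    show algebraMap (cl K s) C c = aeval b (algebraMap (cl K s) R c)
    rw [AlgHom.commutes]
  have t2 : IsScalarTower (cl K s) R Ω := IsScalarTower.of_algebraMap_eq fun c => by
    show algebraMap (cl K s) Ω c = aeval T (algebraMap (cl K s) R c)
    rw [AlgHom.commutes]
  have i1 : Function.Injective (algebraMap R C) :=
    (algebraicIndependent_iff_injective_aeval.1 hb.1 : _)
  have i2 : Function.Injective (algebraMap R Ω) :=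
    (algebraicIndependent_iff_injective_aeval.1 hT : _)
  have f1 : FaithfulSMul R C := (faithfulSMul_iff_algebraMap_injective R C).2 i1
  have f2 : FaithfulSMul R Ω := (faithfulSMul_iff_algebraMap_injective R Ω).2 i2
  have hal : Algebra.IsAlgebraic R C := by
    have h1 := hb.isAlgebraic
    refine ⟨fun c => ?_⟩
    obtain ⟨p, hp0, hp⟩ := h1.isAlgebraic c
    -- transport along the isomorphism
    let ev := hb.1.aevalEquiv
    refine ⟨p.map (ev.symm : _ →+* R), ?_, ?_⟩
    · rw [Ne, Polynomial.map_eq_zero_iff]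
      · exact hp0
      · exact ev.symm.injective
    · rw [Polynomial.aeval_def, Polynomial.eval₂_map]
      rw [Polynomial.aeval_def] at hp
      have h2 : (algebraMap R C).comp (ev.symm : _ →+* R) =
          algebraMap (Algebra.adjoin (cl K s) (Set.range b)) C := by
        ext z
        show aeval b (ev.symm z) = (z : C)
        have h3 := hb.1.aevalEquiv_apply_coe (ev.symm z)
        rw [← h3]
        show ((ev (ev.symm z) : Algebra.adjoin (cl K s) (Set.range b)) : C) = z
        rw [ev.apply_symm_apply]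
      rw [h2]
      exact hp
  let θ : C →ₐ[R] Ω := IsAlgClosed.lift
  refine ⟨θ.restrictScalars (cl K s), ?_⟩
  show Function.Injective θ
  rw [injective_iff_map_eq_zero]
  intro c hc
  by_contra hc0
  obtain ⟨r, hr0, hr⟩ := (hal.isAlgebraic c).exists_nonzero_dvd
    (mem_nonZeroDivisors_of_ne_zero hc0)
  obtain ⟨d, hd⟩ := hr
  apply hr0
  apply i2
  have h5 : θ (algebraMap R C r) = 0 := by rw [hd, map_mul, hc, zero_mul]
  rw [AlgHom.commutes] at h5
  rw [h5, map_zero]

end Pool.Agent.Helper92.GG
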