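import Pool.Agent.Helper95.GG.KRULLa
import Pool.Agent.Helper95.GG.KRULLb

/-! # Module KRULL: intersections of two subvarieties, in terms of generic points -/

set_option autoImplicit false

namespace Pool.Agent.Helper92.GG

open MvPolynomial
open Pool.Agent.Helper49.Girth (cl ty mem_cl mem_cl' coe_cl mem_cl_of_mem cl_mono cl_le_cl)

universe u

theorem KRULL_acl {K Ω : Type u} [Field K] [Field Ω] [Algebra K Ω] [IsAlgClosed Ω] (s : Set Ω) :
    IsAlgClosed (cl K s) := by
  apply IsAlgClosed.of_exists_root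
  intro p hpm hp
  have hdeg : (p.map (algebraMap (cl K s) Ω)).degree ≠ 0 := by
    rw [Polynomial.degree_map]
    exact (Polynomial.degree_pos_of_irreducible hp).ne'
  obtain ⟨a, ha⟩ := IsAlgClosed.exists_root (p.map (algebraMap (cl K s) Ω)) hdeg
  have ha' : (p.map (algebraMap (cl K s) Ω)).eval a = 0 := ha
  have h1 : a ∈ cl K s := by
    apply Pool.Agent.Helper49.Girth.root_mem_cl (p.map (algebraMap (cl K s) Ω))
    · rw [Polynomial.map_ne_zero_iff (algebraMap (cl K s) Ω).injective]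
      exact hpm.ne_zero
    · intro n
      rw [Polynomial.coeff_map]
      exact (p.coeff n).2
    · exact ha'
  refine ⟨⟨a, h1⟩, ?_⟩
  apply (algebraMap (cl K s) Ω).injective
  rw [map_zero]
  have h2 := Polynomial.hom_eval₂ p (RingHom.id _) (algebraMap (cl K s) Ω) ⟨a, h1⟩
  rw [Polynomial.eval₂_id] at h2
  rw [h2, RingHom.comp_id, ← Polynomial.eval_map]
  exact ha'

/-- a prime ideal is minimal over few equations -/
theorem KRULL_Q {K W Ω Q : Type u} [Field K] [Field W] [Field Ω] [CommRing Q] [Algebra K W]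
    [Algebra W Ω] [Algebra K Ω] [IsScalarTower K W Ω] [Algebra W Q] [Algebra K Q]
    [IsScalarTower K W Q] {n : ℕ} (x : Fin n → Ω) {ew : ℕ} (jw : Fin ew → Fin n)
    (hjw : AlgebraicIndependent W (fun i => x (jw i)))
    (m : MvPolynomial (Fin n) W →ₐ[W] Q) (hm : Function.Surjective m)
    (hJ1 : ∀ f : MvPolynomial (Fin n) K, aeval x f = 0 →
      m (MvPolynomial.map (algebraMap K W) f) = 0)
    (φ : Q →ₐ[W] Ω) (hφ : ∀ f, φ (m f) = aeval x f) :
    ∃ S : Finset (MvPolynomial (Fin n) W), S.card ≤ rk K (Set.range x) - ew ∧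
      (∀ g ∈ S, aeval x g = 0) ∧
      ∀ P : Ideal Q, P.IsPrime → (∀ g ∈ S, m g ∈ P) → (∀ q ∈ P, φ q = 0) →
        ∀ q, φ q = 0 → q ∈ P := by
  classical
  have hQft : Algebra.FiniteType W Q := Algebra.FiniteType.of_surjective m hm
  have hQn : IsNoetherianRing Q := Algebra.FiniteType.isNoetherianRing W Q
  obtain ⟨p, hpdef⟩ : ∃ p : Ideal Q, p = RingHom.ker φ := ⟨_, rfl⟩
  have hpm : ∀ q, q ∈ p ↔ φ q = 0 := fun q => by rw [hpdef]; exact Iff.rfl
  have hp : p.IsPrime := by rw [hpdef]; exact RingHom.ker_isPrime φ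
  have hrtop : ∀ q : Ideal Q, q.IsPrime →
      Algebra.trdeg W (Q ⧸ q) ≤ rk K (Set.range x) := by
    intro q hq
    have hdom : IsDomain (Q ⧸ q) := Ideal.Quotient.isDomain q
    let y : Fin n → Q ⧸ q := fun i => Ideal.Quotient.mk q (m (X i))
    let μ : MvPolynomial (Fin n) W →ₐ[W] (Q ⧸ q) := (Ideal.Quotient.mkₐ W q).comp m
    have hμs : Function.Surjective μ := (Ideal.Quotient.mkₐ_surjective W q).comp hm
    have hμ : μ = aeval y := by
      apply MvPolynomial.algHom_ext
      intro i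
      rw [aeval_X]
      rfl
    have hy : Algebra.adjoin W (Set.range y) = ⊤ := by
      rw [Algebra.adjoin_range_eq_range_aeval, ← hμ]
      exact (AlgHom.range_eq_top μ).2 hμs
    obtain ⟨r, hr1, a, ha1, ha2⟩ := KRULL_top (K := K) (W := W) x y hy (by
      intro f hf
      have h1 : (aeval y f : Q ⧸ q) = aeval y (MvPolynomial.map (algebraMap K W) f) := by
        rw [aeval_map_algebraMap]
      rw [h1, ← hμ]
      show Ideal.Quotient.mk q (m (MvPolynomial.map (algebraMap K W) f)) = 0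
      rw [hJ1 f hf, map_zero])
    refine hr1.trans ?_
    exact_mod_cast KRULL_rk_ge (Set.finite_range x) a ha1 ha2
  have hel : (ew : Cardinal) ≤ Algebra.trdeg W (Q ⧸ p) := by
    let ι : (Q ⧸ p) →ₐ[W] Ω := Ideal.Quotient.liftₐ p φ (fun a ha => (hpm a).1 ha)
    let f : Fin ew → Q ⧸ p := fun i => Ideal.Quotient.mk p (m (X (jw i)))
    have h1 : AlgebraicIndependent W f := by
      apply AlgebraicIndependent.of_comp ι
      have h2 : ι ∘ f = fun i => x (jw i) := by
        funext i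
        show φ (m (X (jw i))) = _
        rw [hφ, aeval_X]
      rw [h2]
      exact hjw
    have h3 := h1.lift_cardinalMk_le_trdeg
    simpa using h3
  have hht := KRULL_height (W := W) (rk K (Set.range x)) hrtop p ew hel
  obtain ⟨S, hS1, hS2⟩ := Ideal.exists_finset_card_eq_height_of_isNoetherianRing p
  have hScard : S.card ≤ rk K (Set.range x) - ew := by
    rw [← hS2] at hht
    exact_mod_cast hht
  let G : Q → MvPolynomial (Fin n) W := Function.surjInv hm
  have hG : ∀ q, m (G q) = q := Function.surjInv_eq _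
  refine ⟨S.image G, Finset.card_image_le.trans hScard, ?_, ?_⟩
  · intro g hg
    obtain ⟨q, hq, rfl⟩ := Finset.mem_image.1 hg
    have h1 : q ∈ p := hS1.1.2 (Ideal.subset_span hq)
    rw [hpm, ← hG q, hφ] at h1
    exact h1
  · intro P hP hSP hPx q hq
    have h1 : Ideal.span (S : Set Q) ≤ P := by
      rw [Ideal.span_le]
      intro q hq
      show q ∈ P
      rw [← hG q]
      exact hSP _ (Finset.mem_image_of_mem G hq)
    have h2 : P ≤ p := by
      intro q hq
      rw [hpm]
      exact hPx _ hq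
    have h3 : p ≤ P := hS1.2 ⟨hP, h1⟩ h2
    exact h3 ((hpm q).2 hq)

/-- a generic point of a component of a subvariety defined by few equations -/
theorem KRULL_R (hDIM : ST_DIM.{u}) {k Ω : Type u} [Field k] [IsAlgClosed k] [Field Ω]
    [Algebra k Ω] {n : ℕ} (v : Fin n → Ω) (x' : Fin n → k)
    (hvx : ∀ f : MvPolynomial (Fin n) k, aeval v f = 0 → aeval x' f = 0)
    {e2 : ℕ} (j2 : Fin e2 → Fin n) (hj2 : AlgebraicIndependent k (fun i => v (j2 i)))
    (T : Finset (MvPolynomial (Fin n) k)) (hT : T.card < e2) (hTx : ∀ g ∈ T, aeval x' g = 0)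
    (hemb : ∀ (C : Type u) [CommRing C] [IsDomain C] [Algebra k C] [Algebra.FiniteType k C],
      ∃ θ : C →ₐ[k] Ω, Function.Injective θ) :
    ∃ z : Fin n → Ω, (∀ f : MvPolynomial (Fin n) k, aeval v f = 0 → aeval z f = 0) ∧
      (∀ f : MvPolynomial (Fin n) k, aeval z f = 0 → aeval x' f = 0) ∧
      (∀ g ∈ T, aeval z g = 0) ∧ ∃ f : MvPolynomial (Fin n) k, aeval x' f = 0 ∧ aeval z f ≠ 0 := by
  classical
  obtain ⟨R2, hR2⟩ : ∃ R2 : Subalgebra k Ω,
    R2 = (aeval v : MvPolynomial (Fin n) k →ₐ[k] Ω).range := ⟨_, rfl⟩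
  obtain ⟨ev, hev, hevv⟩ : ∃ ev : MvPolynomial (Fin n) k →ₐ[k] R2, Function.Surjective ev ∧
      ∀ f, ((ev f : R2) : Ω) = aeval v f := by
    subst hR2
    exact ⟨(aeval v : MvPolynomial (Fin n) k →ₐ[k] Ω).rangeRestrict,
      AlgHom.rangeRestrict_surjective _, fun _ => rfl⟩
  have hft2 : Algebra.FiniteType k R2 := Algebra.FiniteType.of_surjective ev hev
  have hn2 : IsNoetherianRing R2 := Algebra.FiniteType.isNoetherianRing k R2
  have hker : RingHom.ker ev.toRingHom ≤ RingHom.ker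
      (aeval x' : MvPolynomial (Fin n) k →ₐ[k] k).toRingHom := by
    intro f hf
    have h1 : ev f = 0 := hf
    have h2 : aeval v f = 0 := by rw [← hevv, h1]; rfl
    exact hvx f h2
  obtain ⟨π, hπ⟩ : ∃ π : R2 →ₐ[k] k, ∀ f, π (ev f) = aeval x' f :=
    ⟨AlgHom.liftOfSurjective ev hev (aeval x') hker, fun f =>
      AlgHom.liftOfSurjective_apply ev hev (aeval x') hker f⟩
  have hπs : Function.Surjective π := by
    intro c
    refine ⟨algebraMap k R2 c, ?_⟩
    rw [AlgHom.commutes]; rfl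
  obtain ⟨Mx, hMxdef⟩ : ∃ Mx : Ideal R2, Mx = RingHom.ker π := ⟨_, rfl⟩
  have hMxm : ∀ a, a ∈ Mx ↔ π a = 0 := fun a => by rw [hMxdef]; exact Iff.rfl
  have hMx : Mx.IsMaximal := by
    rw [hMxdef]; exact RingHom.ker_isMaximal_of_surjective π hπs
  have htr2 : (e2 : Cardinal) ≤ Algebra.trdeg k R2 := by
    have h1 : AlgebraicIndependent k (fun i : Fin e2 => ev (X (j2 i))) := by
      apply AlgebraicIndependent.of_comp R2.val
      have h2 : R2.val ∘ (fun i : Fin e2 => ev (X (j2 i))) = fun i => v (j2 i) := by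
        funext i
        have h3 := hevv (X (j2 i))
        rw [aeval_X] at h3
        exact h3
      rw [h2]
      exact hj2
    have h3 := h1.lift_cardinalMk_le_trdeg
    simpa using h3
  have hMht := hDIM k R2 Mx e2 htr2
  have hI2 : Ideal.span ((T.image ev : Finset R2) : Set R2) ≤ Mx := by
    rw [Ideal.span_le]
    intro b hb
    rw [Finset.mem_coe, Finset.mem_image] at hb
    obtain ⟨g, hg, rfl⟩ := hb
    show ev g ∈ Mx
    rw [hMxm, hπ]
    exact hTx g hg
  obtain ⟨H, hH1, hH2⟩ := Ideal.exists_minimalPrimes_le hI2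
  have hHp : H.IsPrime := hH1.1.1
  have hHht : H.height ≤ T.card := by
    refine (Ideal.height_le_card_of_mem_minimalPrimes_span_finset hH1).trans ?_
    exact_mod_cast Finset.card_image_le
  have hHne : ¬ Mx ≤ H := by
    intro hle
    have h : H = Mx := le_antisymm hH2 hle
    rw [h] at hHht
    have h1 : (e2 : ℕ∞) ≤ T.card := hMht.trans hHht
    have h2 : e2 ≤ T.card := by exact_mod_cast h1
    omega
  have hdom : IsDomain (R2 ⧸ H) := Ideal.Quotient.isDomain H
  obtain ⟨θ, hθ⟩ := hemb (R2 ⧸ H)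
  let z : Fin n → Ω := fun i => θ (Ideal.Quotient.mk H (ev (X i)))
  have hz : ∀ f : MvPolynomial (Fin n) k, aeval z f = θ (Ideal.Quotient.mk H (ev f)) := by
    intro f
    have h1 : (aeval z : MvPolynomial (Fin n) k →ₐ[k] Ω) =
        (θ.comp (Ideal.Quotient.mkₐ k H)).comp ev := by
      apply MvPolynomial.algHom_ext
      intro i
      rw [aeval_X]
      rfl
    rw [h1]; rfl
  have hz0 : ∀ f : MvPolynomial (Fin n) k, aeval z f = 0 ↔ ev f ∈ H := by
    intro f
    rw [hz]
    constructor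
    · intro h
      rw [← map_zero θ] at h
      exact Ideal.Quotient.eq_zero_iff_mem.1 (hθ h)
    · intro h
      rw [Ideal.Quotient.eq_zero_iff_mem.2 h, map_zero]
  refine ⟨z, ?_, ?_, ?_, ?_⟩
  · intro f hf
    rw [hz0]
    have h1 : ev f = 0 := Subtype.ext (by rw [hevv]; exact hf)
    rw [h1]
    exact H.zero_mem
  · intro f hf
    rw [← hπ, ← hMxm]
    exact hH2 ((hz0 f).1 hf)
  · intro g hg
    rw [hz0]
    exact hH1.1.2 (Ideal.subset_span (by
      rw [Finset.mem_coe, Finset.mem_image]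
      exact ⟨g, hg, rfl⟩))
  · obtain ⟨a, ha1, ha2⟩ := Set.not_subset.1 hHne
    obtain ⟨f, rfl⟩ := hev a
    refine ⟨f, ?_, ?_⟩
    · rw [← hπ, ← hMxm]; exact ha1
    · rw [Ne, hz0]; exact ha2

/-- the theorem for abstract towers of fields -/
theorem KRULL_main (hDIM : ST_DIM.{u}) {K W k Ω : Type u} [Field K] [Field W] [Field k]
    [IsAlgClosed k] [Field Ω] [Algebra K W] [Algebra K k] [Algebra W k] [Algebra K Ω]
    [Algebra W Ω] [Algebra k Ω] [IsScalarTower K W Ω] [IsScalarTower K k Ω]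
    [IsScalarTower W k Ω] {n : ℕ} (x v : Fin n → Ω) (x' : Fin n → k)
    (hx' : ∀ c, algebraMap k Ω (x' c) = x c)
    {ew : ℕ} (jw : Fin ew → Fin n) (hjw : AlgebraicIndependent W (fun i => x (jw i)))
    {e2 : ℕ} (j2 : Fin e2 → Fin n) (hj2 : AlgebraicIndependent k (fun i => v (j2 i)))
    (hnum : rk K (Set.range x) < ew + e2)
    (hKxv : Spec K x v) (hvx : Spec k v x)
    (hemb : ∀ (C : Type u) [CommRing C] [IsDomain C] [Algebra k C] [Algebra.FiniteType k C],
      ∃ θ : C →ₐ[k] Ω, Function.Injective θ) :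
    ∃ z : Fin n → Ω, Spec k v z ∧ Spec k z x ∧ z ≠ x ∧ Conj W z x := by
  classical
  -- compatibility of the evaluations
  have hW : ∀ (y : Fin n → Ω) (f : MvPolynomial (Fin n) W),
      aeval y (MvPolynomial.map (algebraMap W k) f) = aeval y f := by
    intro y f
    rw [aeval_map_algebraMap]
  have hKW : ∀ (y : Fin n → Ω) (f : MvPolynomial (Fin n) K),
      aeval y (MvPolynomial.map (algebraMap K W) f) = aeval y f := by
    intro y f
    rw [aeval_map_algebraMap]
  have hK2 : ∀ (y : Fin n → Ω) (f : MvPolynomial (Fin n) K),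
      aeval y (MvPolynomial.map (algebraMap K k) f) = aeval y f := by
    intro y f
    rw [aeval_map_algebraMap]
  obtain ⟨J, hJ1, hJgen⟩ : ∃ J : Ideal (MvPolynomial (Fin n) W),
      (∀ f : MvPolynomial (Fin n) K, aeval x f = 0 →
        MvPolynomial.map (algebraMap K W) f ∈ J) ∧
      ∀ y : Fin n → Ω, Spec K x y → ∀ f ∈ J, aeval y f = 0 := by
    refine ⟨Ideal.map (MvPolynomial.map (algebraMap K W))
      (RingHom.ker (aeval x : MvPolynomial (Fin n) K →ₐ[K] Ω)), ?_, ?_⟩
    · intro f hf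
      exact Ideal.mem_map_of_mem _ hf
    · intro y hy
      have : Ideal.map (MvPolynomial.map (algebraMap K W))
          (RingHom.ker (aeval x : MvPolynomial (Fin n) K →ₐ[K] Ω)) ≤
          RingHom.ker (aeval y : MvPolynomial (Fin n) W →ₐ[W] Ω) := by
        rw [Ideal.map_le_iff_le_comap]
        intro f hf
        rw [Ideal.mem_comap, RingHom.mem_ker, hKW]
        exact hy f hf
      exact fun f hf => this hf
  obtain ⟨S, hScard, hSx, hSmin⟩ := KRULL_Q (K := K) (W := W) x jw hjw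
    (Ideal.Quotient.mkₐ W J) (Ideal.Quotient.mkₐ_surjective W J)
    (fun f hf => Ideal.Quotient.eq_zero_iff_mem.2 (hJ1 f hf))
    (Ideal.Quotient.liftₐ J (aeval x) (hJgen x (fun _ h => h))) (fun _ => rfl)
  have hScard2 : S.card < e2 := by
    have h5 : ew ≤ rk K (Set.range x) := by
      apply KRULL_rk_ge (Set.finite_range x) (fun i => x (jw i))
      · exact hjw.restrictScalars (algebraMap K W).injective
      · exact fun i => mem_cl_of_mem ⟨_, rfl⟩
    omega
  have hx0 : ∀ f : MvPolynomial (Fin n) k, aeval x' f = 0 ↔ aeval x f = 0 := by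
    intro f
    have h1 : algebraMap k Ω (aeval x' f) = aeval x f := by
      have h2 : (Algebra.ofId k Ω).comp (aeval x') =
          (aeval x : MvPolynomial (Fin n) k →ₐ[k] Ω) := by
        apply MvPolynomial.algHom_ext
        intro i
        rw [aeval_X]
        show algebraMap k Ω (aeval x' (X i)) = x i
        rw [aeval_X, hx']
      rw [← h2]; rfl
    rw [← h1]
    constructor
    · intro h; rw [h, map_zero]
    · intro h
      apply (algebraMap k Ω).injective
      rw [h, map_zero]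
  obtain ⟨z, hvz, hzx, hTz, f0, hf0x, hf0z⟩ := KRULL_R hDIM v x'
    (fun f hf => (hx0 f).2 (hvx f hf)) j2 hj2 (S.image (MvPolynomial.map (algebraMap W k)))
    (lt_of_le_of_lt Finset.card_image_le hScard2) (by
      intro g' hg'
      obtain ⟨g, hg, rfl⟩ := Finset.mem_image.1 hg'
      rw [hx0, hW]
      exact hSx g hg) (fun C _ _ _ _ => hemb C)
  have hzx2 : Spec k z x := fun f hf => (hx0 f).1 (hzx f hf)
  refine ⟨z, hvz, hzx2, ?_, ?_⟩
  · intro hzx'
    apply hf0z
    rw [hzx']
    exact (hx0 f0).1 hf0x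
  · -- minimality
    have hKxz : Spec K x z := by
      intro f hf
      rw [← hK2]
      apply hvz
      rw [hK2]
      exact hKxv f hf
    have hPx : ∀ g : MvPolynomial (Fin n) W, aeval z g = 0 → aeval x g = 0 := by
      intro g hg
      rw [← hW] at hg
      rw [← hW]
      exact hzx2 _ hg
    obtain ⟨φz, hφz⟩ : ∃ φz : (MvPolynomial (Fin n) W ⧸ J) →ₐ[W] Ω,
        ∀ f, φz (Ideal.Quotient.mk J f) = aeval z f :=
      ⟨Ideal.Quotient.liftₐ J (aeval z) (hJgen z hKxz), fun _ => rfl⟩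
    have hPmin := hSmin (RingHom.ker φz) (RingHom.ker_isPrime φz) (by
      intro g hg
      show φz (Ideal.Quotient.mk J g) = 0
      rw [hφz, ← hW]
      exact hTz _ (Finset.mem_image_of_mem _ hg)) (by
      intro q hq
      obtain ⟨g, rfl⟩ := Ideal.Quotient.mk_surjective q
      have h1 : φz (Ideal.Quotient.mk J g) = 0 := hq
      rw [hφz] at h1
      exact hPx g h1)
    intro f
    refine ⟨fun h => hPx f h, fun h => ?_⟩
    have h1 := hPmin (Ideal.Quotient.mk J f) h
    have h2 : φz (Ideal.Quotient.mk J f) = 0 := h1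
    rw [hφz] at h2
    exact h2

/-- the algebra structure of an inclusion of intermediate fields -/
abbrev KRULL_alg {K Ω : Type u} [Field K] [Field Ω] [Algebra K Ω] {F E : IntermediateField K Ω}
    (h : F ≤ E) : Algebra F E :=
  (IntermediateField.inclusion h).toRingHom.toAlgebra

theorem KRULL_tower {K Ω : Type u} [Field K] [Field Ω] [Algebra K Ω] {F E : IntermediateField K Ω}
    (h : F ≤ E) : @IsScalarTower F E Ω (KRULL_alg h).toSMul _ _ := by
  let ia := KRULL_alg h
  exact IsScalarTower.of_algebraMap_eq fun _ => rfl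

/-- the theorem for intermediate fields -/
theorem KRULL_IF (hDIM : ST_DIM.{u}) {K Ω : Type u} [Field K] [Field Ω] [Algebra K Ω]
    {F E : IntermediateField K Ω} (hFE : F ≤ E) [IsAlgClosed E] {n : ℕ} (x v : Fin n → Ω)
    (hx : ∀ c, x c ∈ E)
    {ew : ℕ} (jw : Fin ew → Fin n) (hjw : AlgebraicIndependent F (fun i => x (jw i)))
    {e2 : ℕ} (j2 : Fin e2 → Fin n) (hj2 : AlgebraicIndependent E (fun i => v (j2 i)))
    (hnum : rk K (Set.range x) < ew + e2)
    (hKxv : Spec K x v) (hvx : Spec E v x)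
    (hemb : ∀ (C : Type u) [CommRing C] [IsDomain C] [Algebra E C] [Algebra.FiniteType E C],
      ∃ θ : C →ₐ[E] Ω, Function.Injective θ) :
    ∃ z : Fin n → Ω, Spec E v z ∧ Spec E z x ∧ z ≠ x ∧ Conj F z x := by
  let ia : Algebra F E := KRULL_alg hFE
  have hst : IsScalarTower F E Ω := KRULL_tower hFE
  exact KRULL_main hDIM x v (fun c => ⟨x c, hx c⟩) (fun _ => rfl) jw hjw j2 hj2 hnum hKxv hvx
    (fun C _ _ _ _ => hemb C)

theorem st_KRULL (hDIM : ST_DIM.{u}) : ST_KRULL.{u} := by
  intro K Ω _ _ _ hBig n sw s₂ hsw hs₂ hsub x v hx hKxv hvx hrk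
  have hacl : IsAlgClosed Ω := hBig.alg
  obtain ⟨ew, jw, hew, hjw⟩ := KRULL_basis (K := K) hsw x
  obtain ⟨e2, j2, he2, hj2⟩ := KRULL_basis (K := K) hs₂ v
  have hnum : rk K (Set.range x) < ew + e2 := by omega
  have hacl2 : IsAlgClosed (cl K s₂) := KRULL_acl s₂
  exact KRULL_IF hDIM (cl_mono hsub) x v hx jw hjw j2 hj2 hnum hKxv hvx
    (fun C _ _ _ _ => KRULL_embed (K := K) hs₂ C)

end Pool.Agent.Helper92.GG
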