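import Pool.Agent.Helper92.GG.Stmts

/-! # Module KRULL, part a: transcendence degrees and heights -/

set_option autoImplicit false

namespace Pool.Agent.Helper92.GG

open MvPolynomial
open Pool.Agent.Helper49.Girth (cl ty)

universe u

/-- transcendence degrees drop along surjections with a kernel -/
theorem KRULL_drop {W B B' : Type u} [Field W] [CommRing B] [IsDomain B] [CommRing B']
    [IsDomain B'] [Algebra W B] [Algebra W B'] (π : B →ₐ[W] B')
    (hπ : Function.Surjective π) (hk : ∃ c, c ≠ 0 ∧ π c = 0) :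
    Algebra.trdeg W B' + 1 ≤ Algebra.trdeg W B := by
  obtain ⟨c, hc0, hc⟩ := hk
  obtain ⟨ι, x', hx'⟩ := exists_isTranscendenceBasis' W B'
  choose x hx using fun i => hπ (x' i)
  have hcomp : π ∘ x = x' := funext hx
  have hind : AlgebraicIndependent W x := by
    apply AlgebraicIndependent.of_comp π
    rw [hcomp]; exact hx'.1
  have htr : Transcendental (Algebra.adjoin W (Set.range x)) c := by
    intro halg
    obtain ⟨r, hr0, hr⟩ := halg.exists_nonzero_dvd (mem_nonZeroDivisors_of_ne_zero hc0)
    apply hr0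
    have h3 : ∃ R : MvPolynomial ι W, aeval x R = (r : B) := by
      have : (r : B) ∈ (aeval (R := W) x).range := by
        rw [← Algebra.adjoin_range_eq_range_aeval]; exact r.2
      exact this
    obtain ⟨R, hR⟩ := h3
    have h4 : π (r : B) = 0 := by
      obtain ⟨d, hd⟩ := hr
      have : (r : B) = c * d := hd
      rw [this, map_mul, hc, zero_mul]
    rw [← hR, MvPolynomial.comp_aeval_apply] at h4
    have h5 : R = 0 := by
      apply hx'.1.eq_zero_of_aeval_eq_zero R
      rw [← h4, ← hcomp]
      rfl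
    apply Subtype.ext
    rw [← hR, h5, map_zero]
    rfl
  have h6 := (AlgebraicIndependent.option_iff_transcendental hind c).2 htr
  have h7 := h6.lift_cardinalMk_le_trdeg
  rw [Cardinal.mk_option, hx'.cardinalMk_eq_trdeg] at h7
  simpa using h7

/-- the transcendence degree of an algebra generated by a specialization over a larger field -/
theorem KRULL_top {K Ω W B : Type u} [Field K] [Field Ω] [Algebra K Ω] [Field W] [Algebra K W]
    [CommRing B] [IsDomain B] [Algebra W B] [Algebra K B] [IsScalarTower K W B] {n : ℕ}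
    (x : Fin n → Ω) (y : Fin n → B) (hy : Algebra.adjoin W (Set.range y) = ⊤)
    (hxy : ∀ f : MvPolynomial (Fin n) K, aeval x f = 0 → aeval y f = 0) :
    ∃ r : ℕ, Algebra.trdeg W B ≤ r ∧ ∃ a : Fin r → Ω, AlgebraicIndependent K a ∧
      ∀ i, a i ∈ cl K (Set.range x) := by
  let φ : MvPolynomial (Fin n) K →ₐ[K] Ω := aeval x
  let A : Subalgebra K Ω := φ.range
  let φ' : MvPolynomial (Fin n) K →ₐ[K] A := φ.rangeRestrict
  have hφ' : Function.Surjective φ' := φ.rangeRestrict_surjective
  have hft : Algebra.FiniteType K A := Algebra.FiniteType.of_surjective φ' hφ'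
  obtain ⟨r, g, hg1, hg2⟩ := exists_integral_inj_algHom_of_fg K A
  have hker : RingHom.ker φ'.toRingHom ≤
      RingHom.ker (aeval y : MvPolynomial (Fin n) K →ₐ[K] B).toRingHom := by
    intro f hf
    have h1 : φ' f = 0 := hf
    have h2 : aeval x f = 0 := congrArg Subtype.val h1
    exact hxy f h2
  let ψ : A →ₐ[K] B := AlgHom.liftOfSurjective φ' hφ' (aeval y) hker
  have hψ : ∀ f, ψ (φ' f) = aeval y f := fun f =>
    AlgHom.liftOfSurjective_apply φ' hφ' (aeval y) hker f
  refine ⟨r, ?_, fun i => ((g (X i) : A) : Ω), ?_, ?_⟩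
  · let T : Fin r → B := fun i => ψ (g (X i))
    let S : Subalgebra W B := Algebra.adjoin W (Set.range T)
    -- the map from the polynomial ring to `S`
    have hS : ∀ P : MvPolynomial (Fin r) K, ψ (g P) ∈ S := by
      intro P
      have : ψ (g P) = aeval T P := by
        have h1 : (ψ.comp g) = aeval T := by
          apply MvPolynomial.algHom_ext
          intro i
          simp [T]
        rw [← h1]; rfl
      rw [this]
      have h2 : (aeval T P : B) = aeval T (MvPolynomial.map (algebraMap K W) P) := by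
        rw [aeval_map_algebraMap]
      rw [h2]
      show _ ∈ Algebra.adjoin W (Set.range T)
      rw [Algebra.adjoin_range_eq_range_aeval]
      exact ⟨_, rfl⟩
    let h : MvPolynomial (Fin r) K →+* S :=
      (ψ.comp g : MvPolynomial (Fin r) K →ₐ[K] B).toRingHom.codRestrict S hS
    have hint : ∀ a : A, IsIntegral S (ψ a) := by
      intro a
      obtain ⟨p, hp1, hp2⟩ := hg2 a
      refine ⟨p.map h, hp1.map h, ?_⟩
      rw [← Polynomial.eval_map, Polynomial.map_map, Polynomial.eval_map]
      have h3 : (algebraMap S B).comp h = ψ.toRingHom.comp g.toRingHom := RingHom.ext fun _ => rfl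
      rw [h3]
      have h4 := congrArg ψ hp2
      rw [map_zero] at h4
      rw [← h4]
      exact (Polynomial.hom_eval₂ p g.toRingHom ψ.toRingHom a).symm
    have hall : ∀ b : B, IsIntegral S b := by
      intro b
      have hb : b ∈ Algebra.adjoin W (Set.range y) := by rw [hy]; trivial
      induction hb using Algebra.adjoin_induction with
      | mem z hz =>
        obtain ⟨i, rfl⟩ := hz
        have : y i = ψ (φ' (X i)) := by rw [hψ, aeval_X]
        rw [this]
        exact hint _
      | algebraMap w =>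
        exact isIntegral_algebraMap (R := S) (x := algebraMap W S w)
      | add a b _ _ ha hb => exact ha.add hb
      | mul a b _ _ ha hb => exact ha.mul hb
    have halg : Algebra.IsAlgebraic (Algebra.adjoin W (Set.range T)) B :=
      ⟨fun b => (hall b).isAlgebraic⟩
    have h5 := Algebra.IsAlgebraic.trdeg_le_cardinalMk W (Set.range T)
    refine h5.trans ?_
    have h6 := Cardinal.mk_range_le_lift (f := T)
    simpa using h6
  · have h1 : (fun i => ((g (X i) : A) : Ω)) = (A.val.comp g) ∘ X := rfl
    rw [h1]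
    rw [algebraicIndependent_iff_injective_aeval]
    have h2 : (aeval ((A.val.comp g) ∘ X) : MvPolynomial (Fin r) K →ₐ[K] Ω) = A.val.comp g := by
      apply MvPolynomial.algHom_ext
      intro i
      simp
    rw [h2]
    exact Subtype.val_injective.comp hg1
  · intro i
    obtain ⟨f, hf⟩ := hφ' (g (X i))
    show ((g (X i) : A) : Ω) ∈ _
    rw [← hf]
    exact Pool.Agent.Helper49.Girth.aeval_mem (cl K (Set.range x)) x
      (fun j => Pool.Agent.Helper49.Girth.mem_cl_of_mem ⟨j, rfl⟩) f

/-- heights in affine algebras -/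
theorem KRULL_height {W Q : Type u} [Field W] [CommRing Q] [Algebra W Q]
    [Algebra.FiniteType W Q] (r : ℕ)
    (hr : ∀ q : Ideal Q, q.IsPrime → Algebra.trdeg W (Q ⧸ q) ≤ r) (p : Ideal Q) [hp : p.IsPrime]
    (e : ℕ) (he : (e : Cardinal) ≤ Algebra.trdeg W (Q ⧸ p)) : p.height ≤ ((r - e : ℕ) : ℕ∞) := by
  -- natural number valued transcendence degrees
  have hT : ∀ q : PrimeSpectrum Q, ∃ t : ℕ, Algebra.trdeg W (Q ⧸ q.asIdeal) = t ∧ t ≤ r := by
    intro q
    have h1 := hr q.asIdeal q.isPrime
    obtain ⟨t, ht⟩ := Cardinal.lt_aleph0.1 (h1.trans_lt Cardinal.natCast_lt_aleph0)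
    refine ⟨t, ht, ?_⟩
    rw [ht] at h1
    exact_mod_cast h1
  choose t ht htr using hT
  have hmono : StrictMono (fun q : PrimeSpectrum Q => r - t q) := by
    intro q q' hqq
    have hle : q.asIdeal ≤ q'.asIdeal := hqq.le
    have hne : q.asIdeal ≠ q'.asIdeal := fun h => hqq.ne (PrimeSpectrum.ext h)
    have i1 : IsDomain (Q ⧸ q.asIdeal) := Ideal.Quotient.isDomain _
    have i2 : IsDomain (Q ⧸ q'.asIdeal) := Ideal.Quotient.isDomain _
    let π : (Q ⧸ q.asIdeal) →ₐ[W] (Q ⧸ q'.asIdeal) := Ideal.Quotient.factorₐ W hle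
    have hπ : Function.Surjective π := Ideal.Quotient.factor_surjective hle
    obtain ⟨c, hc1, hc2⟩ := SetLike.exists_of_lt (lt_of_le_of_ne hle hne)
    have h := KRULL_drop π hπ ⟨Ideal.Quotient.mk _ c, by
      intro h0
      exact hc2 (Ideal.Quotient.eq_zero_iff_mem.1 h0), by
      have : π (Ideal.Quotient.mk _ c) = Ideal.Quotient.mk _ c := rfl
      rw [this]
      exact Ideal.Quotient.eq_zero_iff_mem.2 hc1⟩
    rw [ht q, ht q'] at h
    have h' : t q' + 1 ≤ t q := by exact_mod_cast h
    have h2 := htr q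
    show r - t q < r - t q'
    omega
  have h1 := Order.height_le_height_apply_of_strictMono _ hmono ⟨p, hp⟩
  rw [Order.height_nat] at h1
  have h2 : p.height = Order.height (⟨p, hp⟩ : PrimeSpectrum Q) :=
    PrimeSpectrum.height_eq_orderHeight ⟨p, hp⟩
  rw [h2]
  refine h1.trans ?_
  have h3 : e ≤ t ⟨p, hp⟩ := by
    have h4 := ht ⟨p, hp⟩
    have h5 : (e : Cardinal) ≤ (t ⟨p, hp⟩ : Cardinal) := by rw [← h4]; exact he
    exact_mod_cast h5
  exact_mod_cast Nat.sub_le_sub_left h3 r

end Pool.Agent.Helper92.GG
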